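import Pool.Agent.Q136.Kam8

/-!
# Kameko's squaring operation on coinvariants is not injective in degree zero from rank four on

For every `d ≥ 4` the map `F_2 ⊗_{GL_d} PH_0 → F_2 ⊗_{GL_d} PH_d` is not injective: the class
of `a_1 a_2 ... a_d` vanishes in the coinvariants of `PH_d`.
-/

namespace Pool.Agent.Results.MP_ca28bb_gt.DegreeZeroFailure

open Pool.Agent.Q136.KamekoDef

theorem result : ∀ d : ℕ, 4 ≤ d →
    (∃! f : Coinv d 0 → Coinv d (d + 2 * 0), IsKamekoSquaring d 0 f) ∧
    ∀ f : Coinv d 0 → Coinv d (d + 2 * 0), IsKamekoSquaring d 0 f → ¬ Function.Injective f :=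
  fun d hd => ⟨existsUnique_kameko d 0, fun f hf => not_injective_zero d hd f hf⟩

end Pool.Agent.Results.MP_ca28bb_gt.DegreeZeroFailure
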