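import Pool.Agent.Q136.Kam8

/-!
# Kameko's squaring operation on coinvariants is not injective in any rank at least five

For every `d ≥ 5` and every `k ≥ d` the induced map
`F_2 ⊗_{GL_d} PH_n → F_2 ⊗_{GL_d} PH_{d+2n}` is not injective in the positive degree
`n = 2^k - 1`.  The class in the kernel is that of `a_1^(n)`; its image
`a_1^(2n+1) a_2 ... a_d` vanishes in the coinvariants, while the class itself is detected by
a `GL_d`-invariant class of `(QP_d)_n`.
-/

namespace Pool.Agent.Results.MP_ca28bb_gt.FailsFromRankFive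

open Pool.Agent.Q136.KamekoDef

theorem result : ∀ d k : ℕ, 5 ≤ d → d ≤ k →
    (∃! f : Coinv d (2 ^ k - 1) → Coinv d (d + 2 * (2 ^ k - 1)),
      IsKamekoSquaring d (2 ^ k - 1) f) ∧
    ∀ f : Coinv d (2 ^ k - 1) → Coinv d (d + 2 * (2 ^ k - 1)),
      IsKamekoSquaring d (2 ^ k - 1) f → ¬ Function.Injective f :=
  fun d k hd hk => ⟨existsUnique_kameko d _, fun f hf => not_injective_large d k hd hk f hf⟩

end Pool.Agent.Results.MP_ca28bb_gt.FailsFromRankFive
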